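import Mathlib

set_option autoImplicit false

/-! # Project RL: the degree of the dual variety of a reciprocal linear space.  Linear algebra -/

namespace Pool.Agent.U831.RL

open Module

section perp

variable {ι : Type} [Fintype ι]

/-- the relations of `L` -/
def perp (L : Submodule ℂ (ι → ℂ)) : Submodule ℂ (ι → ℂ) where
  carrier := {c | ∀ x ∈ L, ∑ i, c i * x i = 0}
  add_mem' := by
    intro a b ha hb x hx
    simp only [Pi.add_apply, add_mul, Finset.sum_add_distrib, ha x hx, hb x hx, add_zero]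
  zero_mem' := by
    intro x _
    simp
  smul_mem' := by
    intro r a ha x hx
    simp only [Pi.smul_apply, smul_eq_mul, mul_assoc, ← Finset.mul_sum, ha x hx, mul_zero]

theorem mem_perp {L : Submodule ℂ (ι → ℂ)} {c : ι → ℂ} :
    c ∈ perp L ↔ ∀ x ∈ L, ∑ i, c i * x i = 0 := Iff.rfl

/-- the standard bilinear form -/
noncomputable def dotB (ι : Type) [Fintype ι] : LinearMap.BilinForm ℂ (ι → ℂ) :=
  dotProductBilin ℂ ℂ

theorem dotB_apply (x y : ι → ℂ) : dotB ι x y = ∑ i, x i * y i := rfl

theorem dotB_symm (x y : ι → ℂ) : dotB ι x y = dotB ι y x := by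
  rw [dotB_apply, dotB_apply]
  exact Finset.sum_congr rfl fun i _ => mul_comm _ _

theorem dotB_refl : (dotB ι).IsRefl := fun x y h => by rw [dotB_symm]; exact h

theorem dotB_nondeg : (dotB ι).Nondegenerate := by
  classical
  have h1 : ∀ x : ι → ℂ, (∀ y, dotB ι x y = 0) → x = 0 := by
    intro x hx
    funext i
    have := hx (Pi.single i 1)
    rw [dotB_apply] at this
    simpa [Pi.single_apply] using this
  refine ⟨h1, fun x hx => h1 x fun y => ?_⟩
  rw [dotB_symm]
  exact hx y

theorem perp_eq (L : Submodule ℂ (ι → ℂ)) : perp L = (dotB ι).orthogonal L := by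
  ext c
  rw [LinearMap.BilinForm.mem_orthogonal_iff, mem_perp]
  refine forall₂_congr fun x _ => ?_
  rw [dotB_symm, dotB_apply]

theorem perp_perp (L : Submodule ℂ (ι → ℂ)) : perp (perp L) = L := by
  rw [perp_eq, perp_eq, LinearMap.BilinForm.orthogonal_orthogonal dotB_nondeg dotB_refl]

theorem finrank_perp (L : Submodule ℂ (ι → ℂ)) :
    finrank ℂ (perp L) + finrank ℂ L = Fintype.card ι := by
  rw [perp_eq, LinearMap.BilinForm.finrank_orthogonal dotB_nondeg, finrank_fintype_fun_eq_card]
  have := Submodule.finrank_le L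
  rw [finrank_fintype_fun_eq_card] at this
  omega

theorem mem_iff_perp {L : Submodule ℂ (ι → ℂ)} {x : ι → ℂ} :
    x ∈ L ↔ ∀ c ∈ perp L, ∑ i, c i * x i = 0 := by
  conv_lhs => rw [← perp_perp L]
  rw [mem_perp]
  exact forall₂_congr fun c _ => by
    rw [Finset.sum_congr rfl fun i _ => mul_comm (x i) (c i)]

/-- there is a projector -/
theorem exists_proj [DecidableEq ι] (L : Submodule ℂ (ι → ℂ)) :
    ∃ P : ι → ι → ℂ, (∀ j, (fun i => P i j) ∈ L) ∧
      ∀ x ∈ L, ∀ i, x i = ∑ j, P i j * x j := by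
  obtain ⟨p, hp⟩ := Submodule.exists_isCompl L
  have := L.projectionOnto p hp
  set f : (ι → ℂ) →ₗ[ℂ] (ι → ℂ) := L.subtype ∘ₗ L.projectionOnto p hp with hf
  refine ⟨fun i j => f (Pi.single j 1) i, fun j => ?_, fun x hx i => ?_⟩
  · exact (L.projectionOnto p hp (Pi.single j 1)).2
  · have h1 : f x = x := by
      rw [hf, LinearMap.comp_apply]
      have := Submodule.projectionOnto_apply_left hp ⟨x, hx⟩
      exact congrArg Subtype.val this
    have h2 : x = ∑ j, x j • (Pi.single j 1 : ι → ℂ) := by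
      funext i
      simp [Finset.sum_apply, Pi.single_apply]
    conv_lhs => rw [← h1, h2, map_sum, Finset.sum_apply]
    refine Finset.sum_congr rfl fun j _ => ?_
    rw [map_smul, Pi.smul_apply, smul_eq_mul, mul_comm]

end perp

section overK

variable {ι : Type} [Fintype ι] {K : Type} [Field K] [Algebra ℂ K]

/-- `x` is in `L ⊗ K` -/
def In (L : Submodule ℂ (ι → ℂ)) (x : ι → K) : Prop :=
  ∀ c ∈ perp L, ∑ i, algebraMap ℂ K (c i) * x i = 0

theorem in_of_mem {L : Submodule ℂ (ι → ℂ)} {x : ι → ℂ} (hx : x ∈ L) :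
    In L fun i => algebraMap ℂ K (x i) := by
  intro c hc
  simp only [← map_mul, ← map_sum, hc x hx, map_zero]

/-- a vector of `L ⊗ K` is a combination of vectors of `L` -/
theorem In.eq_sum [DecidableEq ι] {L : Submodule ℂ (ι → ℂ)} {P : ι → ι → ℂ}
    (hP : ∀ x ∈ L, ∀ i, x i = ∑ j, P i j * x j) {x : ι → K} (hx : In L x) (i : ι) :
    x i = ∑ j, algebraMap ℂ K (P i j) * x j := by
  have h1 : (fun j => (if j = i then 1 else 0) - P i j) ∈ perp L := by
    intro y hy
    simp only [sub_mul, Finset.sum_sub_distrib, ite_mul, one_mul, zero_mul]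
    rw [Finset.sum_ite_eq' Finset.univ i, if_pos (Finset.mem_univ i), ← hP y hy i, sub_self]
  have h2 := hx _ h1
  simp only [map_sub, sub_mul, Finset.sum_sub_distrib] at h2
  rw [sub_eq_zero] at h2
  rw [← h2]
  have : ∀ j, algebraMap ℂ K (if j = i then 1 else 0) * x j = if j = i then x j else 0 := by
    intro j
    split_ifs <;> simp
  simp only [this]
  rw [Finset.sum_ite_eq' Finset.univ i, if_pos (Finset.mem_univ i)]

/-- the vectors of `L ⊗ K` and `L^⊥ ⊗ K` are orthogonal -/
theorem In.pair {L : Submodule ℂ (ι → ℂ)} {x z : ι → K} (hx : In L x) (hz : In (perp L) z) :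
    ∑ i, z i * x i = 0 := by
  classical
  obtain ⟨P, hP1, hP2⟩ := exists_proj L
  have h1 : ∀ i, z i * x i = ∑ j, x j * (algebraMap ℂ K (P i j) * z i) := by
    intro i
    conv_lhs => rw [hx.eq_sum hP2 i, Finset.mul_sum]
    exact Finset.sum_congr rfl fun j _ => by ring
  simp only [h1]
  rw [Finset.sum_comm]
  refine Finset.sum_eq_zero fun j _ => ?_
  rw [← Finset.mul_sum, hz _ (by rw [perp_perp]; exact hP1 j), mul_zero]

theorem In.add {L : Submodule ℂ (ι → ℂ)} {x y : ι → K} (hx : In L x) (hy : In L y) :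
    In L fun i => x i + y i := by
  intro c hc
  simp only [mul_add, Finset.sum_add_distrib, hx c hc, hy c hc, add_zero]

theorem In.smul {L : Submodule ℂ (ι → ℂ)} {x : ι → K} (hx : In L x) (r : K) :
    In L fun i => r * x i := by
  intro c hc
  have : ∀ i, algebraMap ℂ K (c i) * (r * x i) = r * (algebraMap ℂ K (c i) * x i) :=
    fun i => by ring
  simp only [this, ← Finset.mul_sum, hx c hc, mul_zero]

theorem In.sub {L : Submodule ℂ (ι → ℂ)} {x y : ι → K} (hx : In L x) (hy : In L y) :
    In L fun i => x i - y i := by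
  intro c hc
  simp only [mul_sub, Finset.sum_sub_distrib, hx c hc, hy c hc, sub_zero]

theorem In.der {L : Submodule ℂ (ι → ℂ)} {x : ι → K} (hx : In L x) (D : Derivation ℂ K K) :
    In L fun i => D (x i) := by
  intro c hc
  have h1 := congrArg D (hx c hc)
  rw [map_sum, map_zero] at h1
  rw [← h1]
  refine Finset.sum_congr rfl fun i _ => ?_
  rw [Derivation.leibniz, Derivation.map_algebraMap, smul_zero, add_zero, smul_eq_mul]

end overK

end Pool.Agent.U831.RL
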