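import Pool.Agent.U831.RL.Base

set_option autoImplicit false
set_option linter.unusedVariables false

/-! # Project RL: the beta invariant of a linear space, deletion and contraction -/

namespace Pool.Agent.U831.RL

open Module

variable {n : ℕ}

/-- the vectors which vanish on `S` -/
def van (S : Finset (Fin n)) : Submodule ℂ (Fin n → ℂ) where
  carrier := {x | ∀ i ∈ S, x i = 0}
  add_mem' := by
    intro x y hx hy i hi
    rw [Pi.add_apply, hx i hi, hy i hi, add_zero]
  zero_mem' := fun i _ => rfl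
  smul_mem' := by
    intro r x hx i hi
    rw [Pi.smul_apply, hx i hi, smul_zero]

theorem mem_van {S : Finset (Fin n)} {x : Fin n → ℂ} : x ∈ van S ↔ ∀ i ∈ S, x i = 0 := Iff.rfl

/-- the rank function -/
noncomputable def rho (L : Submodule ℂ (Fin n → ℂ)) (S : Finset (Fin n)) : ℤ :=
  finrank ℂ L - finrank ℂ (L ⊓ van S : Submodule ℂ (Fin n → ℂ))

/-- the beta invariant -/
noncomputable def bet (L : Submodule ℂ (Fin n → ℂ)) : ℤ :=
  (-1) ^ finrank ℂ L * ∑ S : Finset (Fin n), (-1) ^ S.card * rho L S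

/-- connected matroids -/
def connL (L : Submodule ℂ (Fin n → ℂ)) : Prop :=
  ∀ S : Finset (Fin n), S.Nonempty → Sᶜ.Nonempty → rho L S + rho L Sᶜ ≠ rho L Finset.univ

/-- the restriction to the first coordinates -/
def res (n : ℕ) : (Fin (n + 1) → ℂ) →ₗ[ℂ] (Fin n → ℂ) := LinearMap.funLeft ℂ ℂ Fin.castSucc

theorem res_apply (x : Fin (n + 1) → ℂ) (i : Fin n) : res n x i = x i.castSucc := rfl

/-- the deletion of the last element -/
def del (L : Submodule ℂ (Fin (n + 1) → ℂ)) : Submodule ℂ (Fin n → ℂ) := L.map (res n)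

/-- the contraction of the last element -/
def con (L : Submodule ℂ (Fin (n + 1) → ℂ)) : Submodule ℂ (Fin n → ℂ) :=
  (L ⊓ van {Fin.last n}).map (res n)

/-- the last element is not a loop -/
def NL (L : Submodule ℂ (Fin (n + 1) → ℂ)) : Prop := ∃ x ∈ L, x (Fin.last n) ≠ 0

/-- the last element is not a coloop -/
def NC (L : Submodule ℂ (Fin (n + 1) → ℂ)) : Prop :=
  ∀ x ∈ L, (∀ i : Fin n, x i.castSucc = 0) → x = 0

/-- the set `S` in the larger ground set -/
def up (S : Finset (Fin n)) : Finset (Fin (n + 1)) := S.map Fin.castSuccEmb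

theorem mem_up {S : Finset (Fin n)} {i : Fin n} : i.castSucc ∈ up S ↔ i ∈ S := by
  unfold up
  rw [Finset.mem_map]
  constructor
  · rintro ⟨j, hj, h⟩
    rwa [← Fin.castSucc_injective n h]
  · exact fun h => ⟨i, h, rfl⟩

theorem last_notMem_up (S : Finset (Fin n)) : Fin.last n ∉ up S := by
  unfold up
  rw [Finset.mem_map]
  rintro ⟨j, hj, h⟩
  exact Fin.castSucc_ne_last j h

theorem card_up (S : Finset (Fin n)) : (up S).card = S.card := Finset.card_map _

/-- injectivity on a subspace -/
theorem finrank_map_res {M : Submodule ℂ (Fin (n + 1) → ℂ)}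
    (h : ∀ x ∈ M, (∀ i : Fin n, x i.castSucc = 0) → x = 0) :
    finrank ℂ (M.map (res n)) = finrank ℂ M := by
  have h1 : M.map (res n) = LinearMap.range ((res n).domRestrict M) := by
    rw [LinearMap.range_domRestrict]
  rw [h1]
  refine LinearMap.finrank_range_of_inj ?_
  rw [← LinearMap.ker_eq_bot, LinearMap.ker_eq_bot']
  rintro ⟨x, hx⟩ h2
  have h3 : ∀ i : Fin n, x i.castSucc = 0 := fun i => congrFun h2 i
  exact Subtype.ext (h x hx h3)

theorem del_van (L : Submodule ℂ (Fin (n + 1) → ℂ)) (S : Finset (Fin n)) :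
    del L ⊓ van S = (L ⊓ van (up S)).map (res n) := by
  ext y
  rw [Submodule.mem_inf, Submodule.mem_map]
  constructor
  · rintro ⟨hy, hyS⟩
    obtain ⟨x, hx, rfl⟩ := Submodule.mem_map.1 hy
    refine ⟨x, Submodule.mem_inf.2 ⟨hx, fun i hi => ?_⟩, rfl⟩
    refine Fin.lastCases (fun h => absurd h (last_notMem_up S)) (fun i hi => ?_) i hi
    exact hyS i (mem_up.1 hi)
  · rintro ⟨x, hx, rfl⟩
    rw [Submodule.mem_inf] at hx
    exact ⟨Submodule.mem_map.2 ⟨x, hx.1, rfl⟩, fun i hi => hx.2 _ (mem_up.2 hi)⟩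

theorem con_van (L : Submodule ℂ (Fin (n + 1) → ℂ)) (S : Finset (Fin n)) :
    con L ⊓ van S = (L ⊓ van (insert (Fin.last n) (up S))).map (res n) := by
  have h1 := del_van (L ⊓ van {Fin.last n}) S
  have h2 : (L ⊓ van {Fin.last n}) ⊓ van (up S) = L ⊓ van (insert (Fin.last n) (up S)) := by
    ext x
    simp only [Submodule.mem_inf, mem_van, Finset.mem_insert, Finset.mem_singleton, forall_eq,
      forall_eq_or_imp, and_assoc]
  rw [h2] at h1
  exact h1

theorem van_empty : van (∅ : Finset (Fin n)) = ⊤ := by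
  ext x
  simp [mem_van]

theorem finrank_van_last {L : Submodule ℂ (Fin (n + 1) → ℂ)} (h : NL L) :
    finrank ℂ (L ⊓ van {Fin.last n} : Submodule ℂ (Fin (n + 1) → ℂ)) + 1 = finrank ℂ L := by
  obtain ⟨x0, hx0, hx0'⟩ := h
  set f : L →ₗ[ℂ] ℂ := (LinearMap.proj (Fin.last n)).domRestrict L with hf
  have h1 := LinearMap.finrank_range_add_finrank_ker f
  have h2 : LinearMap.range f = ⊤ := by
    rw [LinearMap.range_eq_top]
    intro c
    refine ⟨(c / x0 (Fin.last n)) • ⟨x0, hx0⟩, ?_⟩
    rw [map_smul]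
    change c / x0 (Fin.last n) * x0 (Fin.last n) = c
    field_simp
  have h3 : finrank ℂ (LinearMap.ker f) =
      finrank ℂ (L ⊓ van {Fin.last n} : Submodule ℂ (Fin (n + 1) → ℂ)) := by
    rw [← Submodule.finrank_map_subtype_eq L (LinearMap.ker f)]
    have h5 : (LinearMap.ker f).map L.subtype = L ⊓ van {Fin.last n} := by
      ext x
      rw [Submodule.mem_map, Submodule.mem_inf]
      constructor
      · rintro ⟨⟨y, hy⟩, h4, rfl⟩
        refine ⟨hy, fun i hi => ?_⟩
        rw [Finset.mem_singleton] at hi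
        rw [hi]
        exact h4
      · rintro ⟨hx, h4⟩
        exact ⟨⟨x, hx⟩, h4 _ (Finset.mem_singleton_self _), rfl⟩
    rw [h5]
  rw [h2, finrank_top, finrank_self, h3] at h1
  omega

theorem rho_del {L : Submodule ℂ (Fin (n + 1) → ℂ)} (h : NC L) (S : Finset (Fin n)) :
    rho (del L) S = rho L (up S) := by
  unfold rho
  rw [del_van, finrank_map_res fun x hx => h x (Submodule.mem_inf.1 hx).1, del,
    finrank_map_res fun x hx => h x hx]

theorem con_inj {L : Submodule ℂ (Fin (n + 1) → ℂ)} (S : Finset (Fin (n + 1)))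
    (hS : Fin.last n ∈ S) (x : Fin (n + 1) → ℂ) (hx : x ∈ L ⊓ van S)
    (h : ∀ i : Fin n, x i.castSucc = 0) : x = 0 := by
  funext i
  refine Fin.lastCases ?_ (fun i => ?_) i
  · exact (Submodule.mem_inf.1 hx).2 _ hS
  · exact h i

theorem finrank_con {L : Submodule ℂ (Fin (n + 1) → ℂ)} (h : NL L) :
    finrank ℂ (con L) + 1 = finrank ℂ L := by
  rw [← finrank_van_last h, con, finrank_map_res (con_inj _ (Finset.mem_singleton_self _))]

theorem finrank_del {L : Submodule ℂ (Fin (n + 1) → ℂ)} (h : NC L) :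
    finrank ℂ (del L) = finrank ℂ L := finrank_map_res fun x hx => h x hx

theorem rho_con {L : Submodule ℂ (Fin (n + 1) → ℂ)} (h : NL L) (S : Finset (Fin n)) :
    rho (con L) S = rho L (insert (Fin.last n) (up S)) - 1 := by
  have h1 := finrank_con h
  unfold rho
  rw [con_van, finrank_map_res (con_inj _ (Finset.mem_insert_self _ _))]
  omega

/-- the sum over the subsets of the larger ground set -/
theorem sum_up (f : Finset (Fin (n + 1)) → ℤ) :
    ∑ S, f S = ∑ S : Finset (Fin n), f (up S) + ∑ S : Finset (Fin n), f (insert (Fin.last n) (up S)) := by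
  classical
  have h1 : ∀ S : Finset (Fin (n + 1)), Fin.last n ∉ S → ∃ T : Finset (Fin n), up T = S := by
    intro S hS
    refine ⟨Finset.univ.filter fun i => i.castSucc ∈ S, ?_⟩
    ext i
    refine Fin.lastCases ?_ (fun i => ?_) i
    · exact ⟨fun h => absurd h (last_notMem_up _), fun h => absurd h hS⟩
    · rw [mem_up, Finset.mem_filter]
      simp
  have hinj : Function.Injective (up : Finset (Fin n) → Finset (Fin (n + 1))) :=
    Finset.map_injective _
  rw [← Finset.sum_filter_add_sum_filter_not Finset.univ (fun S => Fin.last n ∉ S)]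
  congr 1
  · symm
    refine Finset.sum_bij (fun T _ => up T) (fun T _ => ?_) (fun T _ T' _ h => hinj h)
      (fun S hS => ?_) (fun T _ => rfl)
    · rw [Finset.mem_filter]
      exact ⟨Finset.mem_univ _, last_notMem_up T⟩
    · rw [Finset.mem_filter] at hS
      obtain ⟨T, hT⟩ := h1 S hS.2
      exact ⟨T, Finset.mem_univ _, hT⟩
  · symm
    refine Finset.sum_bij (fun T _ => insert (Fin.last n) (up T)) (fun T _ => ?_)
      (fun T _ T' _ h => ?_) (fun S hS => ?_) (fun T _ => rfl)
    · rw [Finset.mem_filter, not_not]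
      exact ⟨Finset.mem_univ _, Finset.mem_insert_self _ _⟩
    · apply hinj
      have := congrArg (fun S => Finset.erase S (Fin.last n)) h
      simpa [Finset.erase_insert (last_notMem_up T), Finset.erase_insert (last_notMem_up T')]
        using this
    · rw [Finset.mem_filter, not_not] at hS
      obtain ⟨T, hT⟩ := h1 (S.erase (Fin.last n)) (Finset.notMem_erase _ _)
      refine ⟨T, Finset.mem_univ _, ?_⟩
      rw [hT, Finset.insert_erase hS.2]

theorem card_ins (S : Finset (Fin n)) : (insert (Fin.last n) (up S)).card = S.card + 1 := by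
  rw [Finset.card_insert_of_notMem (last_notMem_up S), card_up]

theorem sum_neg_one (n : ℕ) : ∑ S : Finset (Fin (n + 1)), (-1 : ℤ) ^ S.card = 0 := by
  rw [← Finset.powerset_univ]
  exact Finset.sum_powerset_neg_one_pow_card_of_nonempty Finset.univ_nonempty

/-- **The recursion of the beta invariant.** -/
theorem bet_rec {L : Submodule ℂ (Fin (n + 2) → ℂ)} (h1 : NL L) (h2 : NC L) :
    bet L = bet (del L) + bet (con L) := by
  unfold bet
  rw [finrank_del h2, sum_up]
  simp only [rho_del h2, rho_con h1, card_up, card_ins]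
  have h3 : (-1 : ℤ) ^ finrank ℂ (con L) = -(-1) ^ finrank ℂ L := by
    rw [← finrank_con h1, pow_succ]
    ring
  have h4 : ∀ S : Finset (Fin (n + 1)), (-1 : ℤ) ^ S.card *
      (rho L (insert (Fin.last (n + 1)) (up S)) - 1) =
      -((-1) ^ (S.card + 1) * rho L (insert (Fin.last (n + 1)) (up S))) - (-1) ^ S.card := by
    intro S
    ring
  rw [h3]
  simp only [h4, Finset.sum_sub_distrib, Finset.sum_neg_distrib, sum_neg_one]
  ring

theorem bet_loop {L : Submodule ℂ (Fin (n + 1) → ℂ)} (h : ¬ NL L) : bet L = 0 := by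
  unfold bet
  rw [sum_up]
  have h1 : ∀ S : Finset (Fin n), rho L (insert (Fin.last n) (up S)) = rho L (up S) := by
    intro S
    have h2 : L ⊓ van (insert (Fin.last n) (up S)) = L ⊓ van (up S) := by
      ext x
      simp only [Submodule.mem_inf, mem_van, Finset.mem_insert, forall_eq_or_imp]
      constructor
      · rintro ⟨h1, _, h2⟩
        exact ⟨h1, h2⟩
      · rintro ⟨h1, h2⟩
        refine ⟨h1, ?_, h2⟩
        by_contra h3
        exact h ⟨x, h1, h3⟩
    unfold rho
    rw [h2]
  simp only [h1, card_up, card_ins, pow_succ]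
  rw [← Finset.sum_add_distrib]
  have h2 : ∀ S : Finset (Fin n), (-1 : ℤ) ^ S.card * rho L (up S) +
      (-1) ^ S.card * -1 * rho L (up S) = 0 := fun S => by ring
  simp only [h2, Finset.sum_const_zero, mul_zero]

theorem rho_coloop {L : Submodule ℂ (Fin (n + 1) → ℂ)} (h : ¬ NC L) (S : Finset (Fin n)) :
    rho L (insert (Fin.last n) (up S)) = rho L (up S) + 1 := by
  unfold NC at h
  push Not at h
  obtain ⟨x0, hx0, h1, h2⟩ := h
  have h3 : x0 (Fin.last n) ≠ 0 := by
    intro h3
    apply h2
    funext i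
    exact Fin.lastCases h3 h1 i
  have h4 : NL (L ⊓ van (up S)) := by
    refine ⟨x0, Submodule.mem_inf.2 ⟨hx0, fun i hi => ?_⟩, h3⟩
    refine Fin.lastCases (fun h => absurd h (last_notMem_up S)) (fun i _ => h1 i) i hi
  have h5 := finrank_van_last h4
  have h6 : (L ⊓ van (up S)) ⊓ van {Fin.last n} = L ⊓ van (insert (Fin.last n) (up S)) := by
    ext x
    simp only [Submodule.mem_inf, mem_van, Finset.mem_insert, Finset.mem_singleton, forall_eq,
      forall_eq_or_imp]
    tauto
  rw [h6] at h5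
  unfold rho
  omega

theorem bet_coloop {L : Submodule ℂ (Fin (n + 2) → ℂ)} (h : ¬ NC L) : bet L = 0 := by
  unfold bet
  rw [sum_up]
  simp only [rho_coloop h, card_up, card_ins, pow_succ]
  rw [← Finset.sum_add_distrib]
  have h2 : ∀ S : Finset (Fin (n + 1)), (-1 : ℤ) ^ S.card * rho L (up S) +
      (-1) ^ S.card * -1 * (rho L (up S) + 1) = -(-1) ^ S.card := fun S => by ring
  simp only [h2, Finset.sum_neg_distrib, sum_neg_one, neg_zero, mul_zero]

end Pool.Agent.U831.RL
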