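import Mathlib

set_option autoImplicit false

/-! # Project RL: reciprocal linear spaces and their dual varieties, definitions -/

namespace Pool.Agent.U831.RL

open MvPolynomial Module

/-- The value at `t` of the linear form with the coefficients `a`. -/
def lin {d : ℕ} (a t : Fin (d + 1) → ℂ) : ℂ := ∑ j, a j * t j

/-- The rank function of the matroid `M(L)` of the linear forms `ℓ_i` with the coefficients `a i`. -/
noncomputable def rk {n d : ℕ} (a : Fin (n + 1) → Fin (d + 1) → ℂ) (S : Finset (Fin (n + 1))) : ℕ :=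
  finrank ℂ (Submodule.span ℂ (a '' S))

/-- The matroid `M(L)` is connected: it is not the direct sum of its restrictions to two complementary
nonempty sets. -/
def Connected {n d : ℕ} (a : Fin (n + 1) → Fin (d + 1) → ℂ) : Prop :=
  ∀ S : Finset (Fin (n + 1)), S.Nonempty → Sᶜ.Nonempty → rk a S + rk a Sᶜ ≠ rk a Finset.univ

/-- The beta invariant `β(L)`. -/
noncomputable def beta {n d : ℕ} (a : Fin (n + 1) → Fin (d + 1) → ℂ) : ℤ :=
  (-1) ^ rk a Finset.univ * ∑ S : Finset (Fin (n + 1)), (-1) ^ S.card * (rk a S : ℤ)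

/-- The polynomials which vanish on `X`. -/
def vanI {n : ℕ} (X : Set (Fin n → ℂ)) : Set (MvPolynomial (Fin n) ℂ) :=
  {G | ∀ x ∈ X, eval x G = 0}

/-- The Zariski closure of `X` in the affine space. -/
def zcl {n : ℕ} (X : Set (Fin n → ℂ)) : Set (Fin n → ℂ) := {x | ∀ G ∈ vanI X, eval x G = 0}

/-- The affine cone over the reciprocal linear space `L⁻¹`: the Zariski closure of the set of the
points `(1 / ℓ_i(t))_i`. -/
def recip {n d : ℕ} (a : Fin (n + 1) → Fin (d + 1) → ℂ) : Set (Fin (n + 1) → ℂ) :=
  zcl {x | ∃ t, ∀ i, lin (a i) t ≠ 0 ∧ x i = (lin (a i) t)⁻¹}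

/-- The Zariski tangent space of the cone `X` at `x`. -/
def tangent {n : ℕ} (X : Set (Fin n → ℂ)) (x : Fin n → ℂ) : Submodule ℂ (Fin n → ℂ) where
  carrier := {v | ∀ G ∈ vanI X, ∑ i, eval x (pderiv i G) * v i = 0}
  add_mem' := by
    intro v w hv hw G hG
    simp only [Pi.add_apply, mul_add, Finset.sum_add_distrib, hv G hG, hw G hG, add_zero]
  zero_mem' := by
    intro G _
    simp
  smul_mem' := by
    intro r v hv G hG
    have h1 : ∀ i, eval x (pderiv i G) * (r • v) i = r * (eval x (pderiv i G) * v i) := by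
      intro i
      rw [Pi.smul_apply, smul_eq_mul]
      ring
    simp only [h1, ← Finset.mul_sum, hv G hG, mul_zero]

/-- The nonzero point `x` of the cone `X` over an irreducible projective variety is a smooth point:
the dimension of the tangent space is minimal. -/
def IsSmoothPt {n : ℕ} (X : Set (Fin n → ℂ)) (x : Fin n → ℂ) : Prop :=
  x ∈ X ∧ x ≠ 0 ∧ ∀ y ∈ X, y ≠ 0 → finrank ℂ (tangent X x) ≤ finrank ℂ (tangent X y)

/-- The cone over the dual variety of the projective variety with the affine cone `X`: the Zariski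
closure of the set of the `u ≠ 0` such that the hyperplane `∑ u_i x_i = 0` is tangent to `X` at some
smooth point. -/
def dualCone {n : ℕ} (X : Set (Fin n → ℂ)) : Set (Fin n → ℂ) :=
  zcl {u | u ≠ 0 ∧ ∃ x, IsSmoothPt X x ∧ ∀ v ∈ tangent X x, ∑ i, u i * v i = 0}

end Pool.Agent.U831.RL
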