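import Pool.Agent.U831.RL.Base
import Pool.Agent.U831.RL.Stm

set_option autoImplicit false
set_option linter.unusedVariables false

/-! # Project RL: the dual variety is the closure of the points `(z_i x_i ^ 2)` -/

namespace Pool.Agent.U831.RL

open MvPolynomial Module

variable {n : ℕ}

/-- the polynomials which vanish at the points `(z_i x_i ^ 2)` -/
def IL (L : Submodule ℂ (Fin n → ℂ)) : Set (MvPolynomial (Fin n) ℂ) :=
  {G | ∀ x ∈ L, ∀ z ∈ perp L, eval (fun i => z i * x i ^ 2) G = 0}

/-- the points `1 / x`, `x ∈ L` without zeros -/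
def tor (L : Submodule ℂ (Fin n → ℂ)) : Set (Fin n → ℂ) :=
  {y | ∃ x ∈ L, (∀ i, x i ≠ 0) ∧ ∀ i, y i = (x i)⁻¹}

theorem subset_zcl (X : Set (Fin n → ℂ)) : X ⊆ zcl X := fun x hx G hG => hG x hx

theorem vanI_zcl (X : Set (Fin n → ℂ)) : vanI (zcl X) = vanI X := by
  ext G
  exact ⟨fun h x hx => h x (subset_zcl X hx), fun h x hx => hx G h⟩

theorem eval_poly (f : Fin n → Polynomial ℂ) (G : MvPolynomial (Fin n) ℂ) (s : ℂ) :
    (aeval f G).eval s = eval (fun i => (f i).eval s) G := by
  induction G using MvPolynomial.induction_on with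
  | C a =>
    rw [aeval_C, eval_C]
    exact Polynomial.eval_C
  | add p q hp hq => rw [map_add, map_add, Polynomial.eval_add, hp, hq]
  | mul_X p i hp => rw [map_mul, map_mul, Polynomial.eval_mul, hp, aeval_X, eval_X]

/-- a line meets the coordinate hyperplanes in finitely many points -/
theorem finite_bad (x x0 : Fin n → ℂ) (h0 : ∀ i, x0 i ≠ 0) :
    {s : ℂ | ∃ i, x i + s * x0 i = 0}.Finite := by
  have h1 : {s : ℂ | ∃ i, x i + s * x0 i = 0} ⊆ Set.range fun i => -(x i) / x0 i := by
    rintro s ⟨i, hi⟩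
    refine ⟨i, ?_⟩
    change -(x i) / x0 i = s
    rw [div_eq_iff (h0 i)]
    linear_combination -hi
  exact (Set.finite_range _).subset h1

/-- a point of `L` without zeros -/
theorem exists_tor (L : Submodule ℂ (Fin n → ℂ)) (h : ∀ i, ∃ x ∈ L, x i ≠ 0) :
    ∃ x ∈ L, ∀ i, x i ≠ 0 := by
  classical
  have key : ∀ S : Finset (Fin n), ∃ x ∈ L, ∀ i ∈ S, x i ≠ 0 := by
    intro S
    induction S using Finset.induction_on with
    | empty => exact ⟨0, L.zero_mem, by simp⟩
    | insert j S hj ih =>
      obtain ⟨x, hx, hxS⟩ := ih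
      obtain ⟨y, hy, hyj⟩ := h j
      have hfin : ((insert 0 ((insert j S).image fun i => -(y i) / x i) : Finset ℂ) : Set ℂ).Finite :=
        Finset.finite_toSet _
      obtain ⟨s, hs⟩ := hfin.exists_notMem
      rw [Finset.mem_coe, Finset.mem_insert, not_or] at hs
      obtain ⟨hs0, hs1⟩ := hs
      refine ⟨y + s • x, L.add_mem hy (L.smul_mem s hx), fun i hi h0 => ?_⟩
      rw [Pi.add_apply, Pi.smul_apply, smul_eq_mul] at h0
      by_cases hxi : x i = 0
      · rw [hxi, mul_zero, add_zero] at h0
        rcases Finset.mem_insert.1 hi with rfl | hi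
        · exact hyj h0
        · exact hxS i hi hxi
      · apply hs1
        rw [Finset.mem_image]
        refine ⟨i, hi, ?_⟩
        rw [div_eq_iff hxi]
        linear_combination -h0
  obtain ⟨x, hx, hx'⟩ := key Finset.univ
  exact ⟨x, hx, fun i => hx' i (Finset.mem_univ i)⟩

/-- the points without zeros suffice -/
theorem mem_IL_of_tor {L : Submodule ℂ (Fin n → ℂ)} (h : ∀ i, ∃ x ∈ L, x i ≠ 0)
    {G : MvPolynomial (Fin n) ℂ}
    (hG : ∀ x ∈ L, (∀ i, x i ≠ 0) → ∀ z ∈ perp L, eval (fun i => z i * x i ^ 2) G = 0) :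
    G ∈ IL L := by
  intro x hx z hz
  obtain ⟨x0, hx0, h0⟩ := exists_tor L h
  set f : Fin n → Polynomial ℂ := fun i =>
    Polynomial.C (z i) * (Polynomial.C (x i) + Polynomial.X * Polynomial.C (x0 i)) ^ 2 with hf
  have hev : ∀ s i, (f i).eval s = z i * (x i + s * x0 i) ^ 2 := by
    intro s i
    simp only [hf, Polynomial.eval_mul, Polynomial.eval_C, Polynomial.eval_pow,
      Polynomial.eval_add, Polynomial.eval_X]
  have h1 : aeval f G = 0 := by
    refine Polynomial.eq_zero_of_infinite_isRoot _ ?_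
    refine Set.Infinite.mono ?_ (finite_bad x x0 h0).infinite_compl
    intro s hs
    change (aeval f G).eval s = 0
    rw [eval_poly]
    simp only [hev]
    have hs' : ∀ i, x i + s * x0 i ≠ 0 := fun i hi => hs ⟨i, hi⟩
    exact hG (fun i => x i + s * x0 i) (L.add_mem hx (L.smul_mem s hx0)) hs' z hz
  have h2 := congrArg (Polynomial.eval 0) h1
  rw [eval_poly, Polynomial.eval_zero] at h2
  simp only [hev, zero_mul, add_zero] at h2
  exact h2

/-- the gradients -/
def grad (X : Set (Fin n → ℂ)) (x : Fin n → ℂ) : Submodule ℂ (Fin n → ℂ) where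
  carrier := {v | ∃ G ∈ vanI X, ∀ i, v i = eval x (pderiv i G)}
  add_mem' := by
    rintro v w ⟨G, hG, hv⟩ ⟨H, hH, hw⟩
    refine ⟨G + H, fun y hy => by rw [map_add, hG y hy, hH y hy, add_zero], fun i => ?_⟩
    rw [map_add, map_add, Pi.add_apply, hv, hw]
  zero_mem' := ⟨0, fun y _ => map_zero _, fun i => by rw [map_zero, map_zero]; rfl⟩
  smul_mem' := by
    rintro r v ⟨G, hG, hv⟩
    refine ⟨C r * G, fun y hy => by rw [map_mul, hG y hy, mul_zero], fun i => ?_⟩
    rw [pderiv_C_mul, map_mul, eval_C, Pi.smul_apply, smul_eq_mul, hv]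

theorem tangent_eq (X : Set (Fin n → ℂ)) (x : Fin n → ℂ) : tangent X x = perp (grad X x) := by
  ext v
  rw [mem_perp]
  constructor
  · rintro hv w ⟨G, hG, hw⟩
    rw [← hv G hG]
    exact Finset.sum_congr rfl fun i _ => by rw [hw]; ring
  · intro hv G hG
    rw [← hv (fun i => eval x (pderiv i G)) ⟨G, hG, fun i => rfl⟩]
    exact Finset.sum_congr rfl fun i _ => by ring

/-- a hyperplane which contains the tangent space is a gradient -/
theorem mem_grad_of {X : Set (Fin n → ℂ)} {x u : Fin n → ℂ}
    (h : ∀ v ∈ tangent X x, ∑ i, u i * v i = 0) :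
    ∃ G ∈ vanI X, ∀ i, u i = eval x (pderiv i G) := by
  have h1 : u ∈ perp (perp (grad X x)) := by
    intro v hv
    rw [← tangent_eq] at hv
    exact h v hv
  rw [perp_perp] at h1
  exact h1

/-- the chain rule -/
theorem hasDerivAt_eval (G : MvPolynomial (Fin n) ℂ) (y : ℂ → Fin n → ℂ) (y' : Fin n → ℂ) (s : ℂ)
    (hy : ∀ i, HasDerivAt (fun s => y s i) (y' i) s) :
    HasDerivAt (fun s => eval (y s) G) (∑ i, eval (y s) (pderiv i G) * y' i) s := by
  induction G using MvPolynomial.induction_on with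
  | C a =>
    simp only [eval_C, pderiv_C, map_zero, zero_mul, Finset.sum_const_zero]
    exact hasDerivAt_const _ _
  | add p q hp hq =>
    simp only [map_add, add_mul, Finset.sum_add_distrib]
    exact hp.add hq
  | mul_X p j hp =>
    have h1 := hp.mul (hy j)
    have h2 : (∑ i, eval (y s) (pderiv i (p * X j)) * y' i) =
        (∑ i, eval (y s) (pderiv i p) * y' i) * y s j + eval (y s) p * y' j := by
      have h3 : ∀ i, eval (y s) (pderiv i (p * X j)) * y' i =
          eval (y s) (pderiv i p) * y' i * y s j + if i = j then eval (y s) p * y' i else 0 := by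
        intro i
        rw [pderiv_mul, map_add, map_mul, map_mul, eval_X, pderiv_X]
        by_cases hij : i = j
        · subst hij
          rw [Pi.single_eq_same, map_one, if_pos rfl]
          ring
        · rw [Pi.single_eq_of_ne (Ne.symm hij), map_zero, if_neg hij]
          ring
      simp only [h3, Finset.sum_add_distrib, ← Finset.sum_mul]
      rw [Finset.sum_ite_eq' Finset.univ j, if_pos (Finset.mem_univ j)]
    have h4 : (fun s => eval (y s) (p * X j)) = (fun s => eval (y s) p) * fun s => y s j := by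
      funext s
      rw [map_mul, eval_X]
      rfl
    rw [h2, h4]
    exact h1

end Pool.Agent.U831.RL
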