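import Pool.Agent.U831.RL.Dual

set_option autoImplicit false
set_option linter.unusedVariables false

/-! # Project RL: the tangent spaces of the reciprocal linear space -/

namespace Pool.Agent.U831.RL

open MvPolynomial Module

variable {n : ℕ}

theorem ev_ne (x h : Fin n → ℂ) (hx : ∀ i, x i ≠ 0) :
    ∀ᶠ s in nhds (0 : ℂ), ∀ i, x i + s * h i ≠ 0 := by
  rw [Filter.eventually_all]
  intro i
  have h1 : ContinuousAt (fun s : ℂ => x i + s * h i) 0 := by fun_prop
  have h2 : (fun s : ℂ => x i + s * h i) 0 ≠ 0 := by simpa using hx i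
  exact h1.eventually_ne h2

theorem hasDeriv_line (x h : Fin n → ℂ) (i : Fin n) (s : ℂ) :
    HasDerivAt (fun s : ℂ => x i + s * h i) (h i) s := by
  have h1 := ((hasDerivAt_id s).mul_const (h i)).const_add (x i)
  rw [one_mul] at h1
  exact h1

/-- derivatives of the curves in the torus -/
theorem tangent_of_mem {L : Submodule ℂ (Fin n → ℂ)} {x : Fin n → ℂ} (hx : x ∈ L)
    (h0 : ∀ i, x i ≠ 0) {v : Fin n → ℂ} (hv : (fun i => v i * x i ^ 2) ∈ L) :
    v ∈ tangent (zcl (tor L)) fun i => (x i)⁻¹ := by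
  intro G hG
  rw [vanI_zcl] at hG
  set y : ℂ → Fin n → ℂ := fun s i => (x i + s * (-(v i * x i ^ 2)))⁻¹ with hy
  have h1 : ∀ i, HasDerivAt (fun s => y s i) (v i) 0 := by
    intro i
    have h2 := hasDeriv_line x (fun i => -(v i * x i ^ 2)) i 0
    have h3 := h2.fun_inv (by simpa using h0 i)
    have h4 : -(-(v i * x i ^ 2)) / (x i + 0 * (-(v i * x i ^ 2))) ^ 2 = v i := by
      have := h0 i
      rw [zero_mul, add_zero, neg_neg]
      field_simp
    rw [h4] at h3
    exact h3
  have h2 := hasDerivAt_eval G y v 0 h1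
  have h3 : (fun s => eval (y s) G) =ᶠ[nhds 0] fun _ => (0 : ℂ) := by
    filter_upwards [ev_ne x (fun i => -(v i * x i ^ 2)) h0] with s hs
    refine hG _ ⟨fun i => x i + s * (-(v i * x i ^ 2)), ?_, hs, fun i => rfl⟩
    have h4 : (fun i => x i + s * (-(v i * x i ^ 2))) = x - s • fun i => v i * x i ^ 2 := by
      funext i
      simp only [Pi.sub_apply, Pi.smul_apply, smul_eq_mul]
      ring
    rw [h4]
    exact L.sub_mem hx (L.smul_mem s hv)
  have h4 := (hasDerivAt_const (0 : ℂ) (0 : ℂ)).congr_of_eventuallyEq h3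
  have h5 := h2.unique h4
  have h6 : y 0 = fun i => (x i)⁻¹ := by
    funext i
    simp [hy]
  rw [h6] at h5
  exact h5

/-- the equations of the reciprocal linear space -/
noncomputable def gc (c : Fin n → ℂ) : MvPolynomial (Fin n) ℂ :=
  ∑ i, C (c i) * ∏ k ∈ Finset.univ.erase i, X k

theorem eval_gc (c w : Fin n → ℂ) (hw : ∀ i, w i ≠ 0) :
    eval w (gc c) = eval w (∏ k, X k) * ∑ i, c i * (w i)⁻¹ := by
  unfold gc
  rw [map_sum, Finset.mul_sum]
  refine Finset.sum_congr rfl fun i _ => ?_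
  rw [map_mul, eval_C, map_prod, map_prod, ← Finset.mul_prod_erase _ _ (Finset.mem_univ i), eval_X]
  have := hw i
  field_simp

theorem gc_mem {L : Submodule ℂ (Fin n → ℂ)} {c : Fin n → ℂ} (hc : c ∈ perp L) :
    gc c ∈ vanI (tor L) := by
  rintro y ⟨x, hx, h0, hy⟩
  rw [eval_gc c y fun i => by rw [hy]; exact inv_ne_zero (h0 i)]
  have h1 : ∑ i, c i * (y i)⁻¹ = 0 := by
    rw [← hc x hx]
    exact Finset.sum_congr rfl fun i _ => by rw [hy, inv_inv]
  rw [h1, mul_zero]

theorem mem_of_tangent {L : Submodule ℂ (Fin n → ℂ)} {x : Fin n → ℂ} (hx : x ∈ L)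
    (h0 : ∀ i, x i ≠ 0) {v : Fin n → ℂ} (hv : v ∈ tangent (zcl (tor L)) fun i => (x i)⁻¹) :
    (fun i => v i * x i ^ 2) ∈ L := by
  rw [mem_iff_perp]
  intro c hc
  have h1 := hv (gc c) (by rw [vanI_zcl]; exact gc_mem hc)
  set y : Fin n → ℂ := fun i => (x i)⁻¹ with hy
  have hy0 : ∀ i, y i ≠ 0 := fun i => inv_ne_zero (h0 i)
  have hd := fun i => hasDeriv_line y v i 0
  have h2 := hasDerivAt_eval (gc c) (fun s i => y i + s * v i) v 0 hd
  have h3 := hasDerivAt_eval (∏ k, X k) (fun s i => y i + s * v i) v 0 hd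
  have h4 : HasDerivAt (fun s : ℂ => ∑ i, c i * (y i + s * v i)⁻¹)
      (∑ i, c i * (-(v i) / (y i + 0 * v i) ^ 2)) 0 := by
    refine HasDerivAt.fun_sum fun i _ => ?_
    refine HasDerivAt.const_mul _ ?_
    refine (hd i).fun_inv ?_
    simpa using hy0 i
  have h5 := h3.mul h4
  have h6 : (fun s => eval (fun i => y i + s * v i) (gc c)) =ᶠ[nhds 0]
      ((fun s => eval (fun i => y i + s * v i) (∏ k, X k)) *
        fun s : ℂ => ∑ i, c i * (y i + s * v i)⁻¹) := by
    filter_upwards [ev_ne y v hy0] with s hs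
    exact eval_gc c _ hs
  have h7 := h2.unique (h5.congr_of_eventuallyEq h6)
  have h8 : (fun i => y i + (0 : ℂ) * v i) = y := by
    funext i
    rw [zero_mul, add_zero]
  have h9 : ∑ i, c i * (y i + 0 * v i)⁻¹ = 0 := by
    refine Eq.trans (Finset.sum_congr rfl fun i _ => ?_) (hc x hx)
    rw [zero_mul, add_zero, hy, inv_inv]
  rw [h9, mul_zero, zero_add, h8, h1, map_prod] at h7
  have h10 : ∏ i, eval y (X i) ≠ 0 := Finset.prod_ne_zero_iff.2 fun i _ => by
    rw [eval_X]
    exact hy0 i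
  have h11 := (mul_eq_zero.1 h7.symm).resolve_left h10
  rw [← neg_eq_zero, ← h11, ← Finset.sum_neg_distrib]
  refine Finset.sum_congr rfl fun i _ => ?_
  rw [zero_mul, add_zero, hy]
  have := h0 i
  field_simp

/-- the dimension of the tangent spaces -/
theorem finrank_tangent {L : Submodule ℂ (Fin n → ℂ)} {x : Fin n → ℂ} (hx : x ∈ L)
    (h0 : ∀ i, x i ≠ 0) :
    finrank ℂ (tangent (zcl (tor L)) fun i => (x i)⁻¹) = finrank ℂ L := by
  let e : (Fin n → ℂ) ≃ₗ[ℂ] (Fin n → ℂ) := LinearEquiv.piCongrRight fun i =>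
    LinearEquiv.smulOfNeZero ℂ ℂ (x i ^ 2) (pow_ne_zero 2 (h0 i))
  have he : ∀ v i, e v i = v i * x i ^ 2 := by
    intro v i
    change x i ^ 2 * v i = _
    ring
  have h1 : tangent (zcl (tor L)) (fun i => (x i)⁻¹) = L.comap (e : (Fin n → ℂ) →ₗ[ℂ] (Fin n → ℂ)) := by
    ext v
    rw [Submodule.mem_comap]
    have h2 : ((e : (Fin n → ℂ) →ₗ[ℂ] (Fin n → ℂ)) v) = fun i => v i * x i ^ 2 := by
      funext i
      exact he v i
    rw [h2]
    exact ⟨mem_of_tangent hx h0, tangent_of_mem hx h0⟩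
  rw [h1]
  exact LinearEquiv.finrank_eq (e.ofSubmodule' L)

/-- the dimension of the tangent space is semicontinuous -/
theorem semicont {X0 : Set (Fin n → ℂ)} {y' : Fin n → ℂ} (hy' : y' ∈ zcl X0) :
    ∃ y ∈ X0, finrank ℂ (tangent (zcl X0) y) ≤ finrank ℂ (tangent (zcl X0) y') := by
  classical
  set W := grad (zcl X0) y' with hW
  have b := Module.finBasis ℂ W
  choose g hg hg' using fun k => (b k).2
  let Φ : (Fin n → ℂ) → (Fin n → ℂ) →ₗ[ℂ] (Fin (finrank ℂ W) → ℂ) := fun y =>
    LinearMap.pi fun k => dotB (Fin n) fun i => eval y (pderiv i (g k))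
  have hΦ : ∀ y v k, Φ y v k = ∑ i, eval y (pderiv i (g k)) * v i := fun y v k => rfl
  have hker : LinearMap.ker (Φ y') = tangent (zcl X0) y' := by
    rw [tangent_eq]
    ext v
    rw [LinearMap.mem_ker, mem_perp]
    constructor
    · intro h w hw
      have h1 := b.sum_repr ⟨w, hw⟩
      have h2 : w = ∑ k, b.repr ⟨w, hw⟩ k • (b k : Fin n → ℂ) := by
        have h3 := congrArg W.subtype h1
        rw [map_sum] at h3
        exact h3.symm
      rw [h2]
      have h3 : ∀ i, v i * (∑ k, b.repr ⟨w, hw⟩ k • (b k : Fin n → ℂ)) i =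
          ∑ k, b.repr ⟨w, hw⟩ k * (eval y' (pderiv i (g k)) * v i) := by
        intro i
        rw [Finset.sum_apply, Finset.mul_sum]
        refine Finset.sum_congr rfl fun k _ => ?_
        rw [Pi.smul_apply, smul_eq_mul, hg']
        ring
      simp only [h3]
      rw [Finset.sum_comm]
      refine Finset.sum_eq_zero fun k _ => ?_
      rw [← Finset.mul_sum, ← hΦ, h]
      exact mul_zero _
    · intro h
      funext k
      rw [hΦ, Pi.zero_apply, ← h (b k) (b k).2]
      refine Finset.sum_congr rfl fun i _ => ?_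
      rw [hg']
      ring
  have hrk : ∀ y, Function.Surjective (Φ y) →
      finrank ℂ (LinearMap.ker (Φ y)) + finrank ℂ W = n := by
    intro y hy
    have h1 := LinearMap.finrank_range_add_finrank_ker (Φ y)
    rw [LinearMap.range_eq_top.2 hy, finrank_top, finrank_fintype_fun_eq_card,
      finrank_fintype_fun_eq_card, Fintype.card_fin, Fintype.card_fin] at h1
    omega
  have hsurj : Function.Surjective (Φ y') := by
    rw [← LinearMap.range_eq_top]
    apply Submodule.eq_top_of_finrank_eq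
    have h1 := LinearMap.finrank_range_add_finrank_ker (Φ y')
    have h2 := finrank_perp W
    rw [hker, tangent_eq, ← hW, finrank_fintype_fun_eq_card] at h1
    rw [finrank_fintype_fun_eq_card, Fintype.card_fin]
    omega
  choose v hv using fun l => hsurj (Pi.single l 1)
  set D : MvPolynomial (Fin n) ℂ :=
    (Matrix.of fun k l => ∑ i, pderiv i (g k) * C (v l i)).det with hD
  have hDev : ∀ y, eval y D = (Matrix.of fun k l => Φ y (v l) k).det := by
    intro y
    rw [hD, RingHom.map_det]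
    congr 1
    ext k l
    rw [RingHom.mapMatrix_apply, Matrix.map_apply, Matrix.of_apply, Matrix.of_apply, map_sum, hΦ]
    exact Finset.sum_congr rfl fun i _ => by rw [map_mul, eval_C]
  have hD1 : eval y' D ≠ 0 := by
    rw [hDev]
    have h1 : (Matrix.of fun k l => Φ y' (v l) k) = 1 := by
      ext k l
      rw [Matrix.of_apply, hv, Matrix.one_apply, Pi.single_apply]
    rw [h1, Matrix.det_one]
    exact one_ne_zero
  have hD2 : D ∉ vanI X0 := fun h => hD1 (hy' D h)
  simp only [vanI, Set.mem_ofPred_eq, not_forall] at hD2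
  obtain ⟨y, hy, hyD⟩ := hD2
  refine ⟨y, hy, ?_⟩
  have hs : Function.Surjective (Φ y) := by
    intro w
    rw [hDev] at hyD
    have hu : IsUnit (Matrix.of fun k l => Φ y (v l) k) := by
      rw [Matrix.isUnit_iff_isUnit_det]
      exact isUnit_iff_ne_zero.2 hyD
    obtain ⟨c, hc⟩ := Matrix.mulVec_surjective_iff_isUnit.2 hu w
    refine ⟨∑ l, c l • v l, ?_⟩
    rw [map_sum, ← hc]
    funext k
    rw [Finset.sum_apply, Matrix.mulVec, dotProduct]
    refine Finset.sum_congr rfl fun l _ => ?_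
    rw [map_smul, Pi.smul_apply, smul_eq_mul, Matrix.of_apply, mul_comm]
  have h1 : tangent (zcl X0) y ≤ LinearMap.ker (Φ y) := by
    intro w hw
    rw [LinearMap.mem_ker]
    funext k
    rw [hΦ]
    exact hw (g k) (hg k)
  have h2 := Submodule.finrank_mono h1
  have h3 := hrk y hs
  have h4 := hrk y' hsurj
  rw [hker] at h4
  omega

end Pool.Agent.U831.RL
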