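import Pool.Agent.U831.RL.Dual2

set_option autoImplicit false
set_option linter.unusedVariables false

/-! # Project RL: the dual variety is the zero set of the generator of the ideal `IL` -/

namespace Pool.Agent.U831.RL

open MvPolynomial Module

variable {n : ℕ}

theorem smooth_tor {L : Submodule ℂ (Fin (n + 1) → ℂ)} {x : Fin (n + 1) → ℂ} (hx : x ∈ L)
    (h0 : ∀ i, x i ≠ 0) : IsSmoothPt (zcl (tor L)) fun i => (x i)⁻¹ := by
  refine ⟨subset_zcl _ ⟨x, hx, h0, fun i => rfl⟩, ?_, ?_⟩
  · intro h
    exact inv_ne_zero (h0 0) (congrFun h 0)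
  · intro y' hy' _
    obtain ⟨y, ⟨x1, hx1, h1, hy⟩, h2⟩ := semicont hy'
    rw [finrank_tangent hx h0]
    have h3 : y = fun i => (x1 i)⁻¹ := funext hy
    rw [h3, finrank_tangent hx1 h1] at h2
    exact h2

/-- the tangent hyperplanes -/
def TH (L : Submodule ℂ (Fin n → ℂ)) : Set (Fin n → ℂ) :=
  {u | ∃ x, IsSmoothPt (zcl (tor L)) x ∧ ∀ v ∈ tangent (zcl (tor L)) x, ∑ i, u i * v i = 0}

theorem eval_aeval (f : Fin n → MvPolynomial (Fin n) ℂ) (G : MvPolynomial (Fin n) ℂ)
    (y : Fin n → ℂ) : eval y (aeval f G) = eval (fun i => eval y (f i)) G := by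
  induction G using MvPolynomial.induction_on with
  | C a =>
    rw [aeval_C, eval_C]
    exact eval_C a
  | add p q hp hq => rw [map_add, map_add, map_add, hp, hq]
  | mul_X p i hp => rw [map_mul, map_mul, map_mul, hp, aeval_X, eval_X]

theorem vanI_TH {L : Submodule ℂ (Fin (n + 1) → ℂ)} (hL : ∀ i, ∃ x ∈ L, x i ≠ 0) :
    vanI (TH L) = IL L := by
  ext G
  constructor
  · intro hG
    refine mem_IL_of_tor hL fun x hx h0 z hz => ?_
    refine hG _ ⟨_, smooth_tor hx h0, fun v hv => ?_⟩
    rw [← hz _ (mem_of_tangent hx h0 hv)]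
    exact Finset.sum_congr rfl fun i _ => by ring
  · rintro hG u ⟨x, hx, hu⟩
    obtain ⟨g, hg, hgu⟩ := mem_grad_of hu
    -- the polynomial `G(∇ g)` vanishes at the points `1 / x`
    have h1 : (aeval (fun i => pderiv i g) G : MvPolynomial (Fin (n + 1)) ℂ) ∈ vanI (tor L) := by
      rintro y ⟨x1, hx1, h1, hy⟩
      have hy' : y = fun i => (x1 i)⁻¹ := funext hy
      rw [eval_aeval]
      have h2 : (fun i => eval y (pderiv i g) * (x1 i)⁻¹ ^ 2) ∈ perp L := by
        intro h hh
        have h3 : (fun i => h i * (x1 i)⁻¹ ^ 2) ∈ tangent (zcl (tor L)) y := by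
          rw [hy']
          refine tangent_of_mem hx1 h1 ?_
          have h4 : (fun i => h i * (x1 i)⁻¹ ^ 2 * x1 i ^ 2) = h := by
            funext i
            have := h1 i
            field_simp
          rw [h4]
          exact hh
        rw [← h3 g hg]
        exact Finset.sum_congr rfl fun i _ => by ring
      have h5 := hG x1 hx1 _ h2
      rw [← h5]
      congr 2
      funext i
      have := h1 i
      field_simp
    have h2 := hx.1 _ h1
    rw [eval_aeval] at h2
    have h3 : u = fun i => eval x (pderiv i g) := funext hgu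
    rw [h3]
    exact h2

/-- **The dual variety.** -/
theorem dual_main {L : Submodule ℂ (Fin (n + 1) → ℂ)} (hL : ∀ i, ∃ x ∈ L, x i ≠ 0)
    {F : MvPolynomial (Fin (n + 1)) ℂ} (hF : ∀ G, G ∈ IL L ↔ F ∣ G)
    (u : Fin (n + 1) → ℂ) (hu : u ≠ 0) : u ∈ dualCone (zcl (tor L)) ↔ eval u F = 0 := by
  constructor
  · intro h
    refine h F ?_
    rintro w ⟨_, hw⟩
    have h1 : F ∈ IL L := (hF F).2 dvd_rfl
    rw [← vanI_TH hL] at h1
    exact h1 w hw
  · intro h G hG
    suffices h1 : G ∈ IL L by
      obtain ⟨H, rfl⟩ := (hF G).1 h1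
      rw [map_mul, h, zero_mul]
    by_cases hT : ∃ u1 ∈ TH L, u1 ≠ 0
    · obtain ⟨u1, ⟨x, hx, hu1⟩, hu1'⟩ := hT
      rw [← vanI_TH hL]
      intro u2 hu2
      by_cases h2 : u2 = 0
      · rw [h2]
        set f : Fin (n + 1) → Polynomial ℂ := fun i => Polynomial.X * Polynomial.C (u1 i) with hf
        have hev : ∀ s i, (f i).eval s = s * u1 i := by
          intro s i
          simp only [hf, Polynomial.eval_mul, Polynomial.eval_C, Polynomial.eval_X]
        have h3 : aeval f G = 0 := by
          refine Polynomial.eq_zero_of_infinite_isRoot _ ?_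
          refine Set.Infinite.mono ?_ (Set.finite_singleton (0 : ℂ)).infinite_compl
          intro s hs
          change (aeval f G).eval s = 0
          rw [eval_poly]
          simp only [hev]
          have hs' : s ≠ 0 := hs
          refine hG _ ⟨?_, x, hx, fun v hv => ?_⟩
          · intro h4
            apply hu1'
            funext i
            have := congrFun h4 i
            exact (mul_eq_zero.1 this).resolve_left hs'
          · simp only [mul_assoc, ← Finset.mul_sum, hu1 v hv, mul_zero]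
        have h4 := congrArg (Polynomial.eval 0) h3
        rw [eval_poly, Polynomial.eval_zero] at h4
        simp only [hev, zero_mul] at h4
        exact h4
      · exact hG u2 ⟨h2, hu2⟩
    · push Not at hT
      exfalso
      apply hu
      funext i
      have h2 : (X i : MvPolynomial (Fin (n + 1)) ℂ) ∈ IL L := by
        rw [← vanI_TH hL]
        intro w hw
        rw [eval_X, hT w hw]
        rfl
      obtain ⟨H, hH⟩ := (hF _).1 h2
      have h3 := congrArg (eval u) hH
      rw [eval_X, map_mul, h, zero_mul] at h3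
      exact h3

/-- the linear space `L` -/
def rowSp {n d : ℕ} (a : Fin (n + 1) → Fin (d + 1) → ℂ) : Submodule ℂ (Fin (n + 1) → ℂ) :=
  LinearMap.range (Matrix.mulVecLin (Matrix.of a))

theorem mem_rowSp {n d : ℕ} {a : Fin (n + 1) → Fin (d + 1) → ℂ} {x : Fin (n + 1) → ℂ} :
    x ∈ rowSp a ↔ ∃ t, ∀ i, x i = lin (a i) t := by
  unfold rowSp
  rw [LinearMap.mem_range]
  refine exists_congr fun t => ?_
  rw [funext_iff]
  exact forall_congr' fun i => eq_comm

theorem recip_eq {n d : ℕ} (a : Fin (n + 1) → Fin (d + 1) → ℂ) :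
    recip a = zcl (tor (rowSp a)) := by
  unfold recip
  congr 1
  ext y
  constructor
  · rintro ⟨t, ht⟩
    exact ⟨fun i => lin (a i) t, mem_rowSp.2 ⟨t, fun i => rfl⟩, fun i => (ht i).1,
      fun i => (ht i).2⟩
  · rintro ⟨x, hx, h0, hy⟩
    obtain ⟨t, ht⟩ := mem_rowSp.1 hx
    exact ⟨t, fun i => by rw [← ht]; exact ⟨h0 i, hy i⟩⟩

end Pool.Agent.U831.RL
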