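import Pool.Agent.U831.RL.Bet

set_option autoImplicit false
set_option linter.unusedVariables false

/-! # Project RL: the beta invariant of a connected matroid is positive -/

namespace Pool.Agent.U831.RL

open Module

variable {n : ℕ}

theorem rho_empty (L : Submodule ℂ (Fin n → ℂ)) : rho L ∅ = 0 := by
  unfold rho
  rw [van_empty, inf_top_eq, sub_self]

theorem van_anti {S T : Finset (Fin n)} (h : S ⊆ T) : van T ≤ van S := fun x hx i hi => hx i (h hi)

theorem rho_mono (L : Submodule ℂ (Fin n → ℂ)) {S T : Finset (Fin n)} (h : S ⊆ T) :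
    rho L S ≤ rho L T := by
  have h1 := Submodule.finrank_mono (inf_le_inf_left L (van_anti h))
  unfold rho
  omega

theorem rho_nonneg (L : Submodule ℂ (Fin n → ℂ)) (S : Finset (Fin n)) : 0 ≤ rho L S := by
  rw [← rho_empty L]
  exact rho_mono L (Finset.empty_subset S)

theorem rho_sub (L : Submodule ℂ (Fin n → ℂ)) (S T : Finset (Fin n)) :
    rho L (S ∪ T) + rho L (S ∩ T) ≤ rho L S + rho L T := by
  classical
  have h1 := Submodule.finrank_sup_add_finrank_inf_eq (L ⊓ van S) (L ⊓ van T)
  have h2 : (L ⊓ van S) ⊓ (L ⊓ van T) = L ⊓ van (S ∪ T) := by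
    ext x
    simp only [Submodule.mem_inf, mem_van, Finset.mem_union]
    constructor
    · rintro ⟨⟨h1, h2⟩, _, h3⟩
      exact ⟨h1, fun i hi => hi.elim (h2 i) (h3 i)⟩
    · rintro ⟨h1, h2⟩
      exact ⟨⟨h1, fun i hi => h2 i (Or.inl hi)⟩, h1, fun i hi => h2 i (Or.inr hi)⟩
  have h3 : (L ⊓ van S) ⊔ (L ⊓ van T) ≤ L ⊓ van (S ∩ T) :=
    sup_le (inf_le_inf_left L (van_anti Finset.inter_subset_left))
      (inf_le_inf_left L (van_anti Finset.inter_subset_right))
  have h4 := Submodule.finrank_mono h3
  rw [h2] at h1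
  unfold rho
  omega

theorem up_univ_insert : insert (Fin.last n) (up (Finset.univ : Finset (Fin n))) = Finset.univ := by
  ext i
  refine Fin.lastCases ?_ (fun i => ?_) i
  · simp
  · simp [mem_up]

theorem up_compl (S : Finset (Fin n)) : (up S)ᶜ = insert (Fin.last n) (up Sᶜ) := by
  classical
  ext i
  refine Fin.lastCases ?_ (fun i => ?_) i
  · simp [last_notMem_up]
  · rw [Finset.mem_compl, mem_up, Finset.mem_insert, mem_up, Finset.mem_compl]
    simp [Fin.castSucc_ne_last]

theorem up_inter (S T : Finset (Fin n)) : up S ∩ insert (Fin.last n) (up T) = up (S ∩ T) := by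
  classical
  ext i
  refine Fin.lastCases ?_ (fun i => ?_) i
  · simp [last_notMem_up]
  · simp [mem_up, Fin.castSucc_ne_last]

theorem up_union (S T : Finset (Fin n)) :
    up S ∪ insert (Fin.last n) (up T) = insert (Fin.last n) (up (S ∪ T)) := by
  classical
  ext i
  refine Fin.lastCases ?_ (fun i => ?_) i
  · simp
  · simp [mem_up, Fin.castSucc_ne_last]

theorem up_nonempty {S : Finset (Fin n)} (h : S.Nonempty) : (up S).Nonempty := by
  obtain ⟨i, hi⟩ := h
  exact ⟨_, mem_up.2 hi⟩

theorem conn_ge {L : Submodule ℂ (Fin (n + 1) → ℂ)} (h : connL L) {X : Finset (Fin n)}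
    (hX : X.Nonempty) : rho L Finset.univ + 1 ≤ rho L (up X) + rho L (insert (Fin.last n) (up Xᶜ)) := by
  classical
  have h1 := h (up X) (up_nonempty hX) (by rw [up_compl]; exact Finset.insert_nonempty _ _)
  have h2 := rho_sub L (up X) (up X)ᶜ
  rw [Finset.union_compl, Finset.inter_compl, rho_empty] at h2
  rw [up_compl] at h1 h2
  omega

/-- uncrossing -/
theorem uncross {L : Submodule ℂ (Fin (n + 1) → ℂ)} (h : connL L) (A C : Finset (Fin n))
    (hA : rho L (up A) + rho L (up Aᶜ) = rho L Finset.univ)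
    (hC : rho L (insert (Fin.last n) (up C)) + rho L (insert (Fin.last n) (up Cᶜ)) =
      rho L Finset.univ + 1) : ¬ ((A ∩ C).Nonempty ∧ (Aᶜ ∩ Cᶜ).Nonempty) := by
  classical
  rintro ⟨h1, h2⟩
  have h3 := rho_sub L (up A) (insert (Fin.last n) (up C))
  have h4 := rho_sub L (up Aᶜ) (insert (Fin.last n) (up Cᶜ))
  rw [up_inter, up_union] at h3 h4
  have h5 := conn_ge h h1
  have h6 := conn_ge h h2
  rw [Finset.compl_inter] at h5 h6
  rw [compl_compl, compl_compl] at h6
  omega

theorem conn_NL {L : Submodule ℂ (Fin (n + 2) → ℂ)} (h : connL L) : NL L := by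
  classical
  by_contra h1
  have h2 := conn_ge h (X := Finset.univ) Finset.univ_nonempty
  have h3 : ∀ S : Finset (Fin (n + 1)), rho L (insert (Fin.last (n + 1)) (up S)) = rho L (up S) := by
    intro S
    have h2 : L ⊓ van (insert (Fin.last (n + 1)) (up S)) = L ⊓ van (up S) := by
      ext x
      simp only [Submodule.mem_inf, mem_van, Finset.mem_insert, forall_eq_or_imp]
      constructor
      · rintro ⟨h1, _, h2⟩
        exact ⟨h1, h2⟩
      · rintro ⟨h3, h2⟩
        refine ⟨h3, ?_, h2⟩
        by_contra h4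
        exact h1 ⟨x, h3, h4⟩
    unfold rho
    rw [h2]
  have h4 := h3 Finset.univ
  have h5 := h3 (Finset.univ : Finset (Fin (n + 1)))ᶜ
  rw [up_univ_insert] at h4
  rw [Finset.compl_univ] at h2 h5
  have h6 : up (∅ : Finset (Fin (n + 1))) = ∅ := Finset.map_empty _
  rw [h6, rho_empty] at h5
  rw [h6] at h2
  omega

theorem conn_NC {L : Submodule ℂ (Fin (n + 2) → ℂ)} (h : connL L) : NC L := by
  classical
  by_contra h1
  have h2 := conn_ge h (X := Finset.univ) Finset.univ_nonempty
  have h4 := rho_coloop h1 Finset.univ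
  have h5 := rho_coloop h1 (Finset.univ : Finset (Fin (n + 1)))ᶜ
  rw [up_univ_insert] at h4
  rw [Finset.compl_univ] at h2 h5
  have h6 : up (∅ : Finset (Fin (n + 1))) = ∅ := Finset.map_empty _
  rw [h6, rho_empty] at h5
  rw [h6] at h2
  omega

/-- **Tutte's lemma.** -/
theorem tutte {L : Submodule ℂ (Fin (n + 2) → ℂ)} (h : connL L) : connL (del L) ∨ connL (con L) := by
  classical
  by_contra h1
  rw [not_or] at h1
  obtain ⟨h1, h2⟩ := h1
  unfold connL at h1 h2
  push Not at h1 h2
  obtain ⟨A, hA1, hA2, hA⟩ := h1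
  obtain ⟨C, hC1, hC2, hC⟩ := h2
  have hL := conn_NL h
  have hC' := conn_NC h
  have hU : rho L (up (Finset.univ : Finset (Fin (n + 1)))) = rho L Finset.univ := by
    unfold rho
    have h3 : L ⊓ van (up (Finset.univ : Finset (Fin (n + 1)))) = ⊥ := by
      rw [eq_bot_iff]
      intro x hx
      rw [Submodule.mem_inf] at hx
      exact hC' x hx.1 fun i => hx.2 _ (mem_up.2 (Finset.mem_univ i))
    have h4 : L ⊓ van (Finset.univ : Finset (Fin (n + 2))) = ⊥ := by
      rw [eq_bot_iff]
      intro x hx
      rw [Submodule.mem_inf] at hx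
      exact funext fun i => hx.2 _ (Finset.mem_univ i)
    rw [h3, h4]
  rw [rho_del hC', rho_del hC', rho_del hC', hU] at hA
  rw [rho_con hL, rho_con hL, rho_con hL, up_univ_insert] at hC
  have e1 := uncross h A C hA (by omega)
  have e2 := uncross h A Cᶜ hA (by rw [compl_compl]; omega)
  rw [compl_compl] at e2
  rw [not_and_or, Finset.not_nonempty_iff_eq_empty, Finset.not_nonempty_iff_eq_empty] at e1 e2
  have d : ∀ X Y : Finset (Fin (n + 1)), X ∩ Y = ∅ → X ∩ Yᶜ = ∅ → X = ∅ := by
    intro X Y h1 h2
    rw [← Finset.inter_univ X, ← Finset.union_compl Y, Finset.inter_union_distrib_left, h1, h2,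
      Finset.empty_union]
  have d' : ∀ X Y : Finset (Fin (n + 1)), Y ∩ X = ∅ → Yᶜ ∩ X = ∅ → X = ∅ := by
    intro X Y h1 h2
    rw [Finset.inter_comm] at h1 h2
    exact d X Y h1 h2
  rcases e1 with e1 | e1 <;> rcases e2 with e2 | e2
  · exact hA1.ne_empty (d A C e1 e2)
  · exact hC1.ne_empty (d' C A e1 e2)
  · exact hC2.ne_empty (d' Cᶜ A e2 e1)
  · exact hA2.ne_empty (d Aᶜ C e2 e1)

/-- one element -/
theorem bet_one (L : Submodule ℂ (Fin 1 → ℂ)) : bet L = finrank ℂ L := by
  have h1 : finrank ℂ L ≤ 1 := by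
    have := Submodule.finrank_le L
    rwa [finrank_fintype_fun_eq_card, Fintype.card_fin] at this
  have h2 : rho L {0} = finrank ℂ L := by
    unfold rho
    have h3 : L ⊓ van ({0} : Finset (Fin 1)) = ⊥ := by
      rw [eq_bot_iff]
      intro x hx
      rw [Submodule.mem_inf] at hx
      refine funext fun i => ?_
      rw [Subsingleton.elim i 0]
      exact hx.2 0 (Finset.mem_singleton_self _)
    rw [h3, finrank_bot]
    simp
  have h3 : (Finset.univ : Finset (Finset (Fin 1))) = {∅, {0}} := by decide
  unfold bet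
  rw [h3, Finset.sum_pair (by decide), h2, rho_empty]
  interval_cases finrank ℂ L <;> simp

theorem bet_nonneg : ∀ (n : ℕ) (L : Submodule ℂ (Fin (n + 1) → ℂ)), 0 ≤ bet L := by
  intro n
  induction n with
  | zero =>
    intro L
    rw [bet_one]
    exact Int.natCast_nonneg _
  | succ n ih =>
    intro L
    by_cases h1 : NL L
    · by_cases h2 : NC L
      · rw [bet_rec h1 h2]
        exact add_nonneg (ih _) (ih _)
      · rw [bet_coloop h2]
    · rw [bet_loop h1]

/-- **The beta invariant of a connected matroid is positive.** -/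
theorem bet_pos : ∀ (n : ℕ) (L : Submodule ℂ (Fin (n + 1) → ℂ)), connL L → 1 ≤ finrank ℂ L →
    1 ≤ bet L := by
  intro n
  induction n with
  | zero =>
    intro L _ h
    rw [bet_one]
    exact_mod_cast h
  | succ n ih =>
    intro L hc hr
    have h1 := conn_NL hc
    have h2 := conn_NC hc
    rw [bet_rec h1 h2]
    have h3 := bet_nonneg n (del L)
    have h4 := bet_nonneg n (con L)
    by_cases h5 : connL (del L)
    · have := ih (del L) h5 (by rw [finrank_del h2]; exact hr)
      omega
    · have h6 := (tutte hc).resolve_left h5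
      have h7 : 1 ≤ finrank ℂ (con L) := by
        by_contra h8
        have h9 : ∀ S, rho (con L) S = 0 := by
          intro S
          have e1 := rho_nonneg (con L) S
          unfold rho at e1 ⊢
          omega
        rcases n with _ | n
        · apply h5
          intro S hS hS'
          obtain ⟨i, hi⟩ := hS
          obtain ⟨j, hj⟩ := hS'
          have hji : j = i := Fin.ext (by omega)
          rw [Finset.mem_compl, hji] at hj
          exact absurd hi hj
        · refine h6 {0} (Finset.singleton_nonempty _) ⟨1, ?_⟩ ?_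
          · rw [Finset.mem_compl, Finset.mem_singleton]
            simp
          · rw [h9, h9, h9, add_zero]
      have := ih (con L) h6 h7
      omega

end Pool.Agent.U831.RL
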